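import Pool.Agent.H75.PRL.S1
import Pool.Agent.H75.PRL.S2
import Pool.Agent.H75.PRL.S3
import Pool.Agent.H33.AVS.NGH
import Pool.Agent.H91.AVS.Loc
import Pool.Agent.H57.AVS.PTB
import Pool.Agent.H87.AVS.BSH
import Pool.Agent.H68.AVS.LCL
import Pool.Agent.H69.AVS.POL

/-!
# LT1 (board prl): at a simple divisor of `d` the class of a point of the twist has type `(0, 0)`
or `(1, 0)`
-/

set_option autoImplicit false

namespace Pool.PRL

open Polynomial Matrix Pool.AVR Pool.AVS Pool.RZ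

namespace LT1

theorem gr0_symm {K : Type} [Field K] (a b c : K) (h : K[X]) :
    (gr0 a b c h)ᵀ = gr0 a b c h := by
  ext i j
  rw [Matrix.transpose_apply]
  show tau a b c (X ^ (j : ℕ) * X ^ (i : ℕ) * h) = tau a b c (X ^ (i : ℕ) * X ^ (j : ℕ) * h)
  rw [mul_comm (X ^ (j : ℕ)) (X ^ (i : ℕ))]

theorem norm_ne {F : Type} [Field F] (f : F[X] × F[X] × F[X]) (h : (RatFunc F)[X])
    (hc : IsCoprime h (cubK f)) :
    Algebra.norm (RatFunc F) (AdjoinRoot.mk (cubK f) h) ≠ 0 := by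
  have hu : IsUnit (AdjoinRoot.mk (cubK f) h) := by
    obtain ⟨a, b, hab⟩ := hc
    refine IsUnit.of_mul_eq_one (AdjoinRoot.mk (cubK f) a) ?_
    rw [← map_mul, ← map_one (AdjoinRoot.mk (cubK f)), AdjoinRoot.mk_eq_mk]
    exact ⟨-b, by linear_combination hab⟩
  exact (hu.map (Algebra.norm (RatFunc F))).ne_zero

theorem bil_e0 {K : Type} [Field K] (M : Matrix (Fin 3) (Fin 3) K) :
    bil M ![1, 0, 0] ![1, 0, 0] = M 0 0 := by
  unfold bil
  simp [Matrix.mulVec, dotProduct, Fin.sum_univ_three]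

theorem bil_smul_mat {K : Type} [Field K] (M : Matrix (Fin 3) (Fin 3) K) (t : K)
    (z : Fin 3 → K) : bil (t • M) z z = t * bil M z z := by
  unfold bil
  rw [Matrix.smul_mulVec, dotProduct_smul, smul_eq_mul]

/-- The class of a point of the twist: a common point of the two forms. -/
theorem exists_iso (hSCD : SCDStmt) {F : Type} [Field F] {f : F[X] × F[X] × F[X]} {d : F[X]}
    (hd : d ≠ 0) {L : Type} [Field L] (h2 : (2 : L) ≠ 0) (ι : RatFunc F →+* L)
    {h : (RatFunc F)[X]} (hcop : IsCoprime h (cubK f)) (hls : LSD ι d f h) :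
    ∃ z : Fin 3 → L, z ≠ 0 ∧ bil ((g0 f h).map ι) z z = 0 ∧
      ι (rf d) * bil ((g1 f h).map ι) z z = -1 := by
  obtain ⟨-, hs, -⟩ := hSCD F d f hd
  obtain ⟨-, -, hs3, hs4⟩ := hs h
  obtain ⟨x, y, hC, hy, s, hsd⟩ := (hs3 L ι).2 hls
  have h1 := (ptb_thm L h2 _ _ _ x y hC).2 hy _ s hsd
  obtain ⟨hrep, hdet, -⟩ := ngh_thm (RatFunc F) (kf f).1 (kf f).2.1 (kf f).2.2 h
  have hr2 := WUW.repH_map ι ((hs4 _ _).2 hrep)
  obtain ⟨g, hg1, hg2⟩ := bsh_thm L _ _ _ _ _ _ _ _ hr2 h1 (by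
    rw [WUW.AA_det]; exact neg_ne_zero.2 one_ne_zero)
  have hdet0 : ((gr0 (kf f).1 (kf f).2.1 (kf f).2.2 h).map ι).det ≠ 0 := by
    have e1 : ((gr0 (kf f).1 (kf f).2.1 (kf f).2.2 h).map ι).det =
        ι ((gr0 (kf f).1 (kf f).2.1 (kf f).2.2 h).det) := by
      rw [RingHom.map_det]; rfl
    rw [e1, hdet]
    exact (_root_.map_ne_zero ι).2 (neg_ne_zero.2 (norm_ne f h hcop))
  have hgd : g.det ≠ 0 := by
    intro h0
    apply hdet0
    rw [hg1, Matrix.det_mul, h0, mul_zero]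
  have hgu : IsUnit g.det := isUnit_iff_ne_zero.2 hgd
  have hgz : g *ᵥ (g⁻¹ *ᵥ ![1, 0, 0]) = ![1, 0, 0] := by
    rw [Matrix.mulVec_mulVec, Matrix.mul_nonsing_inv _ hgu, Matrix.one_mulVec]
  refine ⟨g⁻¹ *ᵥ ![1, 0, 0], ?_, ?_, ?_⟩
  · intro h0
    rw [h0, Matrix.mulVec_zero] at hgz
    have := congrFun hgz 0
    simp at this
  · show bil ((gr0 (kf f).1 (kf f).2.1 (kf f).2.2 h).map ι) _ _ = 0
    rw [hg1, LCL.bil_congr, hgz, bil_e0]
    simp [AA]
  · have e2 : (rf d • gr1 (kf f).1 (kf f).2.1 (kf f).2.2 h).map ι =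
        ι (rf d) • (g1 f h).map ι := by
      ext i j
      simp only [Matrix.map_apply, Matrix.smul_apply, smul_eq_mul, map_mul]
    rw [← bil_smul_mat, ← e2, hg2, LCL.bil_congr, hgz, bil_e0]
    simp [BP]

section loc

variable {L : Type} [Field L] {O : ValuationSubring L} {π : L}

theorem quad {G : Matrix (Fin 3) (Fin 3) L} (hG : MI (O : Set L) G) {z z' : Fin 3 → L}
    (hz : ∀ i, z i ∈ O) (hz' : ∀ i, z' i ∈ O) (hd : ∀ i, (z' - z) i / π ∈ O) :
    (bil G z' z' - bil G z z) / π ∈ O := by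
  have e : bil G z' z' - bil G z z =
      (z' - z) ⬝ᵥ (G *ᵥ z') + z ⬝ᵥ (G *ᵥ (z' - z)) := by
    unfold bil
    rw [Matrix.mulVec_sub, dotProduct_sub, sub_dotProduct]
    ring
  rw [e]
  exact LCL.mm_add (LCL.dot_mm' hd (LCL.mulVec_mem hG hz')) (LCL.dot_mm hz (LCL.mulVec_mm hG hd))

end loc

/-- In the situation of `LMI` there is no local point. -/
theorem no_pt (hLMI : LMIStmt) (hSCD : SCDStmt) {F : Type} [Field F] [Finite F]
    (h2 : (2 : F) ≠ 0) {P : F[X]} (hPm : P.Monic) (hPi : Irreducible P)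
    {f : F[X] × F[X] × F[X]} {d : F[X]} (hPd : P ∣ d) (hPd2 : ¬ P ^ 2 ∣ d)
    {L : Type} [Field L] {O : ValuationSubring L} {ι : RatFunc F →+* L}
    (hι : IsComp F (IP P) (rf P) L O ι) {h : (RatFunc F)[X]} (hcop : IsCoprime h (cubK f))
    (hsq : IsSquare (Algebra.norm (RatFunc F) (AdjoinRoot.mk (cubK f) h)))
    (hls : LSD ι d f h) (hT : Typ P f (0, 1) h) : False := by
  have hd0 : d ≠ 0 := fun h0 => hPd2 (h0 ▸ dvd_zero _)
  obtain ⟨z, hz, hz0, hz1⟩ := exists_iso hSCD hd0 hι.loc.two.1 ι hcop hls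
  obtain ⟨g, hg, hG, hB, hall⟩ := hLMI F h2 P f hPm hPi h hsq hT
  obtain ⟨-, hpolr, hpolp, -⟩ := pol_thm F
  obtain ⟨d', rfl⟩ := hPd
  have hd' : ¬ P ∣ d' := by
    intro h0
    apply hPd2
    rw [pow_two]
    exact mul_dvd_mul_left P h0
  have hP0 : P ≠ 0 := hPi.ne_zero
  have hrfP : rf P ≠ 0 := by
    intro h0
    exact hP0 ((map_eq_zero_iff _ (IsFractionRing.injective F[X] (RatFunc F))).1 h0)
  -- the lattice over L
  set gL := g.map ι with hgL
  have hgLd : gL.det ≠ 0 := by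
    have e1 : gL.det = ι g.det := by rw [hgL, RingHom.map_det]; rfl
    rw [e1]
    exact (_root_.map_ne_zero ι).2 hg
  have hgu : IsUnit gL.det := isUnit_iff_ne_zero.2 hgLd
  set GM := (gᵀ * g0 f h * g).map ι with hGM
  set BM := (gᵀ * g1 f h * g).map ι with hBM
  have eG : GM = gLᵀ * (g0 f h).map ι * gL := by
    rw [hGM, hgL, Matrix.map_mul, Matrix.map_mul, Matrix.transpose_map]
  have eB : BM = gLᵀ * (g1 f h).map ι * gL := by
    rw [hBM, hgL, Matrix.map_mul, Matrix.map_mul, Matrix.transpose_map]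
  set z1 := gL⁻¹ *ᵥ z with hz1d
  have hgz : gL *ᵥ z1 = z := by
    rw [hz1d, Matrix.mulVec_mulVec, Matrix.mul_nonsing_inv _ hgu, Matrix.one_mulVec]
  have hz1ne : z1 ≠ 0 := by
    intro h0
    rw [h0, Matrix.mulVec_zero] at hgz
    exact hz hgz.symm
  have hGz : bil GM z1 z1 = 0 := by rw [eG, LCL.bil_congr, hgz, hz0]
  have hBz : ι (rf (P * d')) * bil BM z1 z1 = -1 := by rw [eB, LCL.bil_congr, hgz, hz1]
  obtain ⟨v, hv, hu, i₀, hi₀⟩ := LCL.exists_prim hι.loc hz1ne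
  set u := v • z1 with hud
  have hGu : bil GM u u = 0 := by
    rw [hud, LCL.bil_smul_left, LCL.bil_smul_right, hGz, mul_zero, mul_zero]
  have hBu : ι (rf (P * d')) * bil BM u u = -v ^ 2 := by
    rw [hud, LCL.bil_smul_left, LCL.bil_smul_right]
    linear_combination v ^ 2 * hBz
  have hGMO : MI (O : Set L) GM := fun i j => (hι.mem _).2 (hG.1 i j)
  have hBMO : MI (O : Set L) BM := fun i j => (hι.mem _).2 (hB i j)
  have hbO : bil BM u u ∈ O := LCL.dot_mem hu (LCL.mulVec_mem hBMO hu)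
  -- the unit d'
  set δ := ι (rf d') with hδ
  have hδO : δ ∈ O := (hι.mem _).2 (hpolp P d' hPi).1
  have hπ0 : ι (rf P) ≠ 0 := hι.loc.pi_ne
  have hδπ : δ / ι (rf P) ∉ O := by
    rw [hδ, ← map_div₀, hι.mem]
    intro h0
    have h3 := ((hpolp P d' hPi).2 1).1 (by rw [pow_one]; exact h0)
    rw [pow_one] at h3
    exact hd' h3
  obtain ⟨hδ0, hδi⟩ := LCL.unit_of_not_mm hι.loc hδO hδπ
  have hv2 : v ^ 2 = -(ι (rf P) * (δ * bil BM u u)) := by
    have e3 : ι (rf (P * d')) = ι (rf P) * δ := by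
      rw [hδ, ← map_mul]
      congr 1
      exact map_mul _ _ _
    rw [e3] at hBu
    linear_combination hBu
  have hv2π : v ^ 2 / ι (rf P) ∈ O := by
    rw [hv2]
    have : -(ι (rf P) * (δ * bil BM u u)) / ι (rf P) = -(δ * bil BM u u) := by
      field_simp
    rw [this]
    exact neg_mem (O.mul_mem _ _ hδO hbO)
  have hvO : v ∈ O := by
    rcases O.mem_or_inv_mem v with h3 | h3
    · exact h3
    · have := O.mul_mem _ _ (LCL.mm_mem hι.loc hv2π) h3
      have e4 : v ^ 2 * v⁻¹ = v := by field_simp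
      rwa [e4] at this
  have hvπ : v / ι (rf P) ∈ O := by
    by_contra hc
    obtain ⟨h4, h5⟩ := LCL.unit_of_not_mm hι.loc hvO hc
    refine LCL.not_mm_of_unit hι.loc (pow_ne_zero 2 h4) (pow_mem hvO 2) ?_ hv2π
    rw [← inv_pow]
    exact pow_mem h5 2
  have hbπ : bil BM u u / ι (rf P) ∈ O := by
    have h6 : (v / ι (rf P)) ^ 2 ∈ O := pow_mem hvπ 2
    have e5 : bil BM u u / ι (rf P) = -(δ⁻¹ * (v / ι (rf P)) ^ 2) := by
      rw [div_pow, hv2]
      field_simp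
    rw [e5]
    exact neg_mem (O.mul_mem _ _ hδi h6)
  -- approximation
  choose x hx using fun i => hι.dense (u i) 1
  have hxd : ∀ i, ((fun i => ι (x i)) - u) i / ι (rf P) ∈ O := by
    intro i
    have h7 := hx i
    rw [pow_one] at h7
    have h8 := neg_mem h7
    rwa [← neg_div, neg_sub] at h8
  have hxO : ∀ i, (fun i => ι (x i)) i ∈ O := by
    intro i
    have h9 := O.add_mem _ _ (LCL.mm_mem hι.loc (hxd i)) (hu i)
    rwa [Pi.sub_apply, sub_add_cancel] at h9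
  have hq0 := quad (π := ι (rf P)) hGMO hu hxO hxd
  have hq1 := quad (π := ι (rf P)) hBMO hu hxO hxd
  have bmap : ∀ M : Matrix (Fin 3) (Fin 3) (RatFunc F),
      bil (M.map ι) (fun i => ι (x i)) (fun i => ι (x i)) = ι (bil M x x) := by
    intro M
    simp only [bil, Matrix.mulVec, dotProduct, Fin.sum_univ_three, Matrix.map_apply, map_add,
      map_mul]
  have hfin := hall x (fun i => (hι.mem _).1 (hxO i)) ?_ ?_
  · apply hi₀
    have h10 := (hι.mem _).2 (hfin i₀)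
    rw [map_div₀] at h10
    have h11 := LCL.mm_sub h10 (hxd i₀)
    rwa [Pi.sub_apply, sub_sub_cancel] at h11
  · rw [← hι.mem, map_div₀, ← bmap]
    have h12 := hq0
    rw [hGu, sub_zero] at h12
    exact h12
  · rw [← hι.mem, map_div₀, ← bmap]
    have h12 := LCL.mm_add hq1 hbπ
    rwa [sub_add_cancel] at h12

theorem ty4 : ∀ x : Ty, x = (0, 0) ∨ x = (0, 1) ∨ x = (1, 0) ∨ x = (1, 1) := by decide

end LT1

theorem lt1 (hCLA : CLAStmt) (hLCC : LCCStmt) (hOAL : OALStmt) (hLMI : LMIStmt)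
    (hSCD : SCDStmt) : LT1Stmt := by
  intro F _ _ h2 P hPm hPi f d hT hPd hPd2 L _ O ι hι h hcop hsq hls
  have hd0 : d ≠ 0 := fun h0 => hPd2 (h0 ▸ dvd_zero _)
  obtain ⟨x, hx⟩ := hCLA F h2 P f hPm hPi hT h hcop hsq
  rcases LT1.ty4 x with rfl | rfl | rfl | rfl
  · exact Or.inl hx
  · exact (LT1.no_pt hLMI hSCD h2 hPm hPi hPd hPd2 hι hcop hsq hls hx).elim
  · exact Or.inr hx
  · exfalso
    refine hOAL F P hPi L O ι hι (g0 f h) (LT1.gr0_symm _ _ _ _)
      (hLCC F h2 P f hPm hPi h hcop hsq hx) ?_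
    obtain ⟨z, hz, hz0, -⟩ := LT1.exists_iso hSCD hd0 hι.loc.two.1 ι hcop hls
    exact ⟨z, hz, hz0⟩

end Pool.PRL
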