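import Pool.Agent.H75.PRL.S2
import Pool.Agent.H33.AVS.NGH
import Pool.Agent.H1.AVS.CHH
import Pool.Agent.H69.AVS.POL

/-!
# LU2 (board prl): a unit class of square norm is, over the completion, the class of a point of
the twist
-/

set_option autoImplicit false

namespace Pool.PRL

open Polynomial Matrix Pool.AVR Pool.AVS Pool.RZ

theorem disc_tw {F : Type} [Field F] (d : F[X]) (f : F[X] × F[X] × F[X]) :
    disc (tw d f).1 (tw d f).2.1 (tw d f).2.2 = d ^ 6 * disc f.1 f.2.1 f.2.2 := by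
  simp only [disc, tw]
  ring

theorem disc_kf {F : Type} [Field F] (f : F[X] × F[X] × F[X]) :
    disc (kf f).1 (kf f).2.1 (kf f).2.2 = rf (disc f.1 f.2.1 f.2.2) := by
  simp only [disc, kf, map_sub, map_add, map_mul, map_pow, map_ofNat]

theorem lu2 (hLSU : LSUStmt) (hSCD : SCDStmt) (hUSE : USEStmt) : LU2Stmt := by
  intro F _ _ h2 P hPm hPi f d hdisc hPd L _ O ι hι h hcop hsq hUS
  obtain ⟨g, hg, hG, hB⟩ := hUSE F P f h hPi hUS
  obtain ⟨n, hn⟩ := hsq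
  have hd0 : d ≠ 0 := fun h0 => hPd (h0 ▸ dvd_zero P)
  obtain ⟨hrep, hdet, -⟩ := ngh_thm (RatFunc F) (kf f).1 (kf f).2.1 (kf f).2.2 h
  have hrep2 := chh_thm (RatFunc F) _ _ _ h _ _ g hrep
  obtain ⟨-, hs, -⟩ := hSCD F d f hd0
  obtain ⟨-, -, hs3, hs4⟩ := hs h
  have hrep3 := (hs4 _ _).2 hrep2
  obtain ⟨-, hpolr, hpolp, -⟩ := pol_thm F
  have hdI : rf d ∈ IP P := (hpolp P d hPi).1
  have hP0 : P ≠ 0 := hPi.ne_zero
  have key := (hLSU F h2).1 P hPm hPi L O ι hι 1 (kf (tw d f)).1 (kf (tw d f)).2.1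
    (kf (tw d f)).2.2 (n * g.det) (scd d h) _ _ one_ne_zero hrep3 hG ?_ ?_ ?_
  · exact (hs3 L ι).1 key
  · rw [Matrix.det_mul, Matrix.det_mul, Matrix.det_transpose, hdet]
    have : Algebra.norm (RatFunc F) (AdjoinRoot.mk (cub (kf f).1 (kf f).2.1 (kf f).2.2) h) =
      n * n := hn
    rw [this]
    ring
  · intro i j
    rw [Matrix.smul_apply, Matrix.smul_apply, smul_eq_mul, smul_eq_mul, one_pow, inv_one, one_mul]
    exact (hpolr P hPi _ _ hdI (hB i j)).2.1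
  · rw [one_pow, one_pow, one_pow, div_one, div_one, div_one, disc_kf, disc_tw]
    intro h0
    have h1 := ((hpolp P (d ^ 6 * disc f.1 f.2.1 f.2.2) hPi).2 2).1 h0
    have hcop6 : IsCoprime (P ^ 2) (d ^ 6) :=
      ((hPi.coprime_iff_not_dvd).2 hPd).pow
    exact hdisc (hcop6.dvd_of_dvd_mul_left h1)

end Pool.PRL
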